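import Pool.Agent.W492.KC.Defs
import Pool.Agent.W225.KC.Nil

/-!
# The symmetric groups act on the tensor powers
-/

open CategoryTheory Limits MonoidalCategory

namespace Pool.Agent.W657.KC

open Pool.Agent.W492.MT (tpow tr)
open Pool.Agent.W492.KC

section perm

theorem up_zero {n : ℕ} (σ : Equiv.Perm (Fin n)) : up σ 0 = 0 := by
  unfold up
  rw [Equiv.Perm.decomposeFin_symm_apply_zero]

theorem up_succ {n : ℕ} (σ : Equiv.Perm (Fin n)) (x : Fin n) : up σ x.succ = (σ x).succ := by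
  unfold up
  rw [Equiv.Perm.decomposeFin_symm_apply_succ]
  simp

theorem up_mul {n : ℕ} (σ τ : Equiv.Perm (Fin n)) : up (σ * τ) = up σ * up τ := by
  apply Equiv.ext
  intro x
  refine Fin.cases ?_ (fun y => ?_) x
  · rw [Equiv.Perm.mul_apply, up_zero, up_zero, up_zero]
  · rw [Equiv.Perm.mul_apply, up_succ, up_succ, up_succ, Equiv.Perm.mul_apply]

theorem up_one {n : ℕ} : up (1 : Equiv.Perm (Fin n)) = 1 := by
  apply Equiv.ext
  intro x
  refine Fin.cases ?_ (fun y => ?_) x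
  · rw [up_zero]; rfl
  · rw [up_succ]; rfl

theorem up_inj {n : ℕ} {σ τ : Equiv.Perm (Fin n)} (h : up σ = up τ) : σ = τ := by
  apply Equiv.ext
  intro x
  have := congrArg (fun f : Equiv.Perm (Fin (n + 1)) => f x.succ) h
  simp only [up_succ] at this
  exact Fin.succ_injective _ this

theorem dec {n : ℕ} (g : Equiv.Perm (Fin (n + 1))) :
    ∃ e : Equiv.Perm (Fin n), g = Equiv.swap 0 (g 0) * up e := by
  obtain ⟨⟨p, e⟩, hpe⟩ := (Equiv.Perm.decomposeFin (n := n)).symm.surjective g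
  refine ⟨e, ?_⟩
  subst hpe
  rw [Equiv.Perm.decomposeFin_symm_apply_zero]
  apply Equiv.ext
  intro x
  refine Fin.cases ?_ (fun y => ?_) x
  · rw [Equiv.Perm.mul_apply, up_zero, Equiv.Perm.decomposeFin_symm_apply_zero,
      Equiv.swap_apply_left]
  · rw [Equiv.Perm.mul_apply, up_succ, Equiv.Perm.decomposeFin_symm_apply_succ]

theorem fix0 {n : ℕ} (g : Equiv.Perm (Fin (n + 1))) (h : g 0 = 0) : ∃ k, g = up k := by
  obtain ⟨e, he⟩ := dec g
  refine ⟨e, ?_⟩
  rw [h, Equiv.swap_self] at he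
  exact he

theorem not0 {n : ℕ} (g : Equiv.Perm (Fin (n + 2))) (h : g 0 ≠ 0) :
    ∃ h1 h2 : Equiv.Perm (Fin (n + 1)), g = up h1 * Equiv.swap 0 1 * up h2 := by
  obtain ⟨e, he⟩ := dec g
  obtain ⟨q, hq⟩ := Fin.exists_succ_eq_of_ne_zero h
  refine ⟨Equiv.swap 0 q, Equiv.swap 0 q * e, ?_⟩
  have h1 : up (Equiv.swap 0 q) * Equiv.swap 0 1 = Equiv.swap 0 q.succ * up (Equiv.swap 0 q) := by
    rw [Equiv.mul_swap_eq_swap_mul, up_zero]
    have : (1 : Fin (n + 2)) = (0 : Fin (n + 1)).succ := by simp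
    rw [this, up_succ, Equiv.swap_apply_left]
  rw [h1, up_mul, mul_assoc, ← mul_assoc (up (Equiv.swap 0 q)), ← up_mul, Equiv.swap_mul_self,
    up_one, one_mul, hq]
  exact he

theorem s_comm {n : ℕ} (k : Equiv.Perm (Fin n)) :
    (Equiv.swap 0 1 : Equiv.Perm (Fin (n + 2))) * up (up k) = up (up k) * Equiv.swap 0 1 := by
  rw [Equiv.mul_swap_eq_swap_mul, up_zero]
  have : (1 : Fin (n + 2)) = (0 : Fin (n + 1)).succ := by simp
  rw [this, up_succ, up_zero]

theorem s_braid {n : ℕ} :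
    (Equiv.swap 0 1 : Equiv.Perm (Fin (n + 3))) * up (Equiv.swap 0 1) * Equiv.swap 0 1 =
      up (Equiv.swap 0 1) * Equiv.swap 0 1 * up (Equiv.swap 0 1) := by
  have h2 : (2 : Fin (n + 3)) = (1 : Fin (n + 2)).succ := by ext; simp
  have h1 : (1 : Fin (n + 3)) = (0 : Fin (n + 2)).succ := by simp
  have e : up (Equiv.swap 0 1 : Equiv.Perm (Fin (n + 2))) = Equiv.swap (1 : Fin (n + 3)) 2 := by
    apply Equiv.ext
    intro x
    refine Fin.cases ?_ (fun y => ?_) x
    · rw [up_zero, Equiv.swap_apply_of_ne_of_ne]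
      · rw [h1]; exact (Fin.succ_ne_zero _).symm
      · rw [h2]; exact (Fin.succ_ne_zero _).symm
    · rw [up_succ, h1, h2]
      exact ((Fin.succ_injective _).swap_apply _ _ _).symm
  rw [e]
  have h01 : (0 : Fin (n + 3)) ≠ 1 := by rw [h1]; exact (Fin.succ_ne_zero _).symm
  have h02 : (0 : Fin (n + 3)) ≠ 2 := by rw [h2]; exact (Fin.succ_ne_zero _).symm
  have h12 : (1 : Fin (n + 3)) ≠ 2 := by
    rw [h1, h2]
    intro h
    have := Fin.succ_injective _ h
    exact absurd this (by simp)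
  have a1 := Equiv.swap_mul_swap_mul_swap h12.symm h02.symm
  have a2 := Equiv.swap_mul_swap_mul_swap h01 h02
  rw [a2, Equiv.swap_comm 2 0, ← a1, Equiv.swap_comm 1 0, Equiv.swap_comm 2 1]

end perm

/-- the relation defining the extension -/
def Rl {M : Type*} [Monoid M] {n : ℕ} (ψ : Equiv.Perm (Fin (n + 1)) →* M) (s : M)
    (g : Equiv.Perm (Fin (n + 2))) (m : M) : Prop :=
  (∃ h, g = up h ∧ m = ψ h) ∨
    ∃ h1 h2, g = up h1 * Equiv.swap 0 1 * up h2 ∧ m = ψ h1 * s * ψ h2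

theorem ss {n : ℕ} : (Equiv.swap 0 1 : Equiv.Perm (Fin (n + 2))) * Equiv.swap 0 1 = 1 :=
  Equiv.swap_mul_self _ _

theorem s0 {n : ℕ} : (Equiv.swap 0 1 : Equiv.Perm (Fin (n + 2))) 0 = (0 : Fin (n + 1)).succ := by
  rw [Equiv.swap_apply_left]; simp

theorem Rl_ex {M : Type*} [Monoid M] {n : ℕ} (ψ : Equiv.Perm (Fin (n + 1)) →* M) (s : M)
    (g : Equiv.Perm (Fin (n + 2))) : ∃ m, Rl ψ s g m := by
  by_cases h : g 0 = 0
  · obtain ⟨k, hk⟩ := fix0 g h
    exact ⟨ψ k, Or.inl ⟨k, hk, rfl⟩⟩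
  · obtain ⟨h1, h2, hh⟩ := not0 g h
    exact ⟨ψ h1 * s * ψ h2, Or.inr ⟨h1, h2, hh, rfl⟩⟩

theorem mixed {n : ℕ} {h h1 h2 : Equiv.Perm (Fin (n + 1))}
    (e : up h = up h1 * Equiv.swap 0 1 * up h2) : False := by
  have := congrArg (fun f : Equiv.Perm (Fin (n + 2)) => f 0) e
  simp only [Equiv.Perm.mul_apply, up_zero, s0, up_succ] at this
  exact (Fin.succ_ne_zero _) this.symm

theorem cancel {n : ℕ} {a b : Equiv.Perm (Fin (n + 1))}
    (e : up a * Equiv.swap 0 1 = Equiv.swap 0 1 * up b) : ∃ k, a = up k ∧ b = up k := by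
  have h0 := congrArg (fun f : Equiv.Perm (Fin (n + 2)) => f 0) e
  simp only [Equiv.Perm.mul_apply, up_zero, s0, up_succ] at h0
  obtain ⟨k, hk⟩ := fix0 a (Fin.succ_injective _ h0)
  refine ⟨k, hk, ?_⟩
  rw [hk, ← s_comm] at e
  have e2 := mul_left_cancel e
  rw [← up_inj e2]

theorem Rl_un {M : Type*} [Monoid M] {n : ℕ} (ψ : Equiv.Perm (Fin (n + 1)) →* M) (s : M)
    (hc : ∀ k : Equiv.Perm (Fin n), s * ψ (up k) = ψ (up k) * s)
    {g : Equiv.Perm (Fin (n + 2))} {m m' : M} (h : Rl ψ s g m) (h' : Rl ψ s g m') : m = m' := by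
  rcases h with ⟨k, hk, rfl⟩ | ⟨a1, a2, ha, rfl⟩
  · rcases h' with ⟨k', hk', rfl⟩ | ⟨b1, b2, hb, rfl⟩
    · rw [up_inj (hk.symm.trans hk')]
    · exact (mixed (hk.symm.trans hb)).elim
  · rcases h' with ⟨k', hk', rfl⟩ | ⟨b1, b2, hb, rfl⟩
    · exact (mixed (hk'.symm.trans ha)).elim
    · have e := ha.symm.trans hb
      have e1 : up (b1⁻¹ * a1) * Equiv.swap 0 1 = Equiv.swap 0 1 * up (b2 * a2⁻¹) := by
        have i1 : up b1⁻¹ * up b1 = 1 := by rw [← up_mul, inv_mul_cancel, up_one]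
        have i2 : up a2 * up a2⁻¹ = 1 := by rw [← up_mul, mul_inv_cancel, up_one]
        calc up (b1⁻¹ * a1) * Equiv.swap 0 1
            = up b1⁻¹ * (up a1 * Equiv.swap 0 1 * up a2) * up a2⁻¹ := by
              rw [up_mul, mul_assoc (up b1⁻¹) (up a1 * Equiv.swap 0 1 * up a2),
                mul_assoc (up a1 * Equiv.swap 0 1), i2, mul_one, mul_assoc]
          _ = up b1⁻¹ * (up b1 * Equiv.swap 0 1 * up b2) * up a2⁻¹ := by rw [e]
          _ = _ := by
              rw [up_mul, mul_assoc (up b1) (Equiv.swap 0 1), ← mul_assoc (up b1⁻¹), i1, one_mul,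
                mul_assoc]
      obtain ⟨k, hk1, hk2⟩ := cancel e1
      have f1 : a1 = b1 * up k := by rw [← hk1, mul_inv_cancel_left]
      have f2 : b2 = up k * a2 := by rw [← hk2, inv_mul_cancel_right]
      rw [f1, f2, map_mul, map_mul, mul_assoc (ψ b1), ← hc, mul_assoc (ψ b1), mul_assoc (ψ b1),
        mul_assoc s]

theorem Rl_mul {M : Type*} [Monoid M] {n : ℕ} (ψ : Equiv.Perm (Fin (n + 1)) →* M) (s : M)
    (hs : s * s = 1)
    (hc : ∀ k : Equiv.Perm (Fin n), s * ψ (up k) = ψ (up k) * s)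
    (hb : ∀ m : ℕ, m + 1 = n → s * ψ (Equiv.swap 0 1) * s =
      ψ (Equiv.swap 0 1) * s * ψ (Equiv.swap 0 1))
    {g g' : Equiv.Perm (Fin (n + 2))} {m m' : M} (h : Rl ψ s g m) (h' : Rl ψ s g' m') :
    Rl ψ s (g * g') (m * m') := by
  rcases h with ⟨k, rfl, rfl⟩ | ⟨a1, a2, rfl, rfl⟩
  · rcases h' with ⟨k', rfl, rfl⟩ | ⟨b1, b2, rfl, rfl⟩
    · exact Or.inl ⟨k * k', (up_mul _ _).symm, (map_mul _ _ _).symm⟩
    · exact Or.inr ⟨k * b1, b2, by rw [up_mul]; simp only [mul_assoc],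
        by rw [map_mul]; simp only [mul_assoc]⟩
  · rcases h' with ⟨k', rfl, rfl⟩ | ⟨b1, b2, rfl, rfl⟩
    · exact Or.inr ⟨a1, a2 * k', by rw [up_mul]; simp only [mul_assoc],
        by rw [map_mul]; simp only [mul_assoc]⟩
    · by_cases h0 : (a2 * b1) 0 = 0
      · obtain ⟨k, hk⟩ := fix0 _ h0
        refine Or.inl ⟨a1 * up k * b2, ?_, ?_⟩
        · calc up a1 * Equiv.swap 0 1 * up a2 * (up b1 * Equiv.swap 0 1 * up b2)
              = up a1 * (Equiv.swap 0 1 * up (a2 * b1) * Equiv.swap 0 1) * up b2 := by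
                rw [up_mul]; simp only [mul_assoc]
            _ = up a1 * up (up k) * up b2 := by
                rw [hk, s_comm, mul_assoc (up (up k)), ss, mul_one]
            _ = _ := by rw [up_mul, up_mul]
        · calc ψ a1 * s * ψ a2 * (ψ b1 * s * ψ b2)
              = ψ a1 * (s * ψ (a2 * b1) * s) * ψ b2 := by
                rw [map_mul]; simp only [mul_assoc]
            _ = ψ a1 * ψ (up k) * ψ b2 := by
                rw [hk, hc, mul_assoc (ψ (up k)), hs, mul_one]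
            _ = _ := by rw [map_mul, map_mul]
      · rcases n with _ | n
        · exact absurd (Fin.ext (by have := ((a2 * b1) 0).2; omega)) h0
        · obtain ⟨k1, k2, hk⟩ := not0 _ h0
          have hb' := hb n rfl
          refine Or.inr ⟨a1 * (up k1 * Equiv.swap 0 1), Equiv.swap 0 1 * up k2 * b2, ?_, ?_⟩
          · calc up a1 * Equiv.swap 0 1 * up a2 * (up b1 * Equiv.swap 0 1 * up b2)
                = up a1 * (Equiv.swap 0 1 * up (a2 * b1) * Equiv.swap 0 1) * up b2 := by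
                  rw [up_mul a2]; simp only [mul_assoc]
              _ = up a1 * (up (up k1) * (Equiv.swap 0 1 * up (Equiv.swap 0 1) * Equiv.swap 0 1)
                    * up (up k2)) * up b2 := by
                  rw [hk, up_mul, up_mul]
                  have c1 := s_comm k1
                  have c2 := s_comm k2
                  congr 2
                  calc Equiv.swap 0 1 * (up (up k1) * up (Equiv.swap 0 1) * up (up k2)) *
                        Equiv.swap 0 1
                      = (Equiv.swap 0 1 * up (up k1)) * up (Equiv.swap 0 1) *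
                          (up (up k2) * Equiv.swap 0 1) := by simp only [mul_assoc]
                    _ = _ := by rw [c1, ← c2]; simp only [mul_assoc]
              _ = _ := by
                  rw [s_braid, up_mul, up_mul, up_mul, up_mul]; simp only [mul_assoc]
          · calc ψ a1 * s * ψ a2 * (ψ b1 * s * ψ b2)
                = ψ a1 * (s * ψ (a2 * b1) * s) * ψ b2 := by
                  rw [map_mul]; simp only [mul_assoc]
              _ = ψ a1 * (ψ (up k1) * (s * ψ (Equiv.swap 0 1) * s) * ψ (up k2)) * ψ b2 := by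
                  rw [hk, map_mul, map_mul]
                  have c1 := hc k1
                  have c2 := hc k2
                  congr 2
                  calc s * (ψ (up k1) * ψ (Equiv.swap 0 1) * ψ (up k2)) * s
                      = (s * ψ (up k1)) * ψ (Equiv.swap 0 1) * (ψ (up k2) * s) := by
                        simp only [mul_assoc]
                    _ = _ := by rw [c1, ← c2]; simp only [mul_assoc]
              _ = _ := by
                  rw [hb', map_mul, map_mul, map_mul, map_mul]; simp only [mul_assoc]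

/-- the abstract extension lemma -/
theorem extend {M : Type*} [Monoid M] {n : ℕ} (ψ : Equiv.Perm (Fin (n + 1)) →* M) (s : M)
    (hs : s * s = 1)
    (hc : ∀ k : Equiv.Perm (Fin n), s * ψ (up k) = ψ (up k) * s)
    (hb : ∀ m : ℕ, m + 1 = n → s * ψ (Equiv.swap 0 1) * s =
      ψ (Equiv.swap 0 1) * s * ψ (Equiv.swap 0 1)) :
    ∃ Ψ : Equiv.Perm (Fin (n + 2)) →* M, (∀ τ, Ψ (up τ) = ψ τ) ∧ Ψ (Equiv.swap 0 1) = s := by
  choose f hf using Rl_ex ψ s
  have hu : ∀ g m, Rl ψ s g m → f g = m := fun g m h => Rl_un ψ s hc (hf g) h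
  refine ⟨⟨⟨f, ?_⟩, ?_⟩, ?_, ?_⟩
  · apply hu
    exact Or.inl ⟨1, up_one.symm, (map_one _).symm⟩
  · intro g g'
    exact hu _ _ (Rl_mul ψ s hs hc hb (hf g) (hf g'))
  · intro τ
    exact hu _ _ (Or.inl ⟨τ, rfl, rfl⟩)
  · apply hu
    refine Or.inr ⟨1, 1, ?_, ?_⟩
    · rw [up_one, one_mul, mul_one]
    · rw [map_one, one_mul, mul_one]

/-! ### The action -/

universe v u

section

variable {T : Type u} [Category.{v} T] [MonoidalCategory T] [SymmetricCategory T]

/-- the condition on the swap -/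
def SwOK (X : T) : ∀ n : ℕ, (Equiv.Perm (Fin (n + 1)) →* End (tpow X (n + 1))) → Prop
  | 0, _ => True
  | m + 1, b => b (Equiv.swap 0 1) = swp X (tpow X m)

/-- two successive levels of the action -/
structure Lvl (X : T) (n : ℕ) where
  a : Equiv.Perm (Fin n) →* End (tpow X n)
  b : Equiv.Perm (Fin (n + 1)) →* End (tpow X (n + 1))
  hab : ∀ σ : Equiv.Perm (Fin n),
    b (up σ) = (X ◁ (a σ : tpow X n ⟶ tpow X n) : X ⊗ tpow X n ⟶ X ⊗ tpow X n)
  hsw : SwOK X n b

/-- whiskering -/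
def wh (X : T) {n : ℕ} (b : Equiv.Perm (Fin n) →* End (tpow X n)) :
    Equiv.Perm (Fin n) →* End (tpow X (n + 1)) where
  toFun τ := (X ◁ (b τ : tpow X n ⟶ tpow X n) : X ⊗ tpow X n ⟶ X ⊗ tpow X n)
  map_one' := by
    rw [map_one]
    exact MonoidalCategory.whiskerLeft_id _ _
  map_mul' σ τ := by
    rw [map_mul]
    exact MonoidalCategory.whiskerLeft_comp _ _ _

theorem next (X : T) (n : ℕ) (L : Lvl X n) : ∃ L' : Lvl X (n + 1), L'.a = L.b := by
  obtain ⟨Ψ, h1, h2⟩ := extend (M := End (tpow X (n + 2))) (wh X L.b) (swp X (tpow X n))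
    (Pool.Agent.W225.KC.swp_swp X (tpow X n))
    (fun k => by
      show (wh X L.b (up k) : _ ⟶ _) ≫ swp X (tpow X n) = swp X (tpow X n) ≫ wh X L.b (up k)
      have e : wh X L.b (up k) = (X ◁ (X ◁ (L.a k : tpow X n ⟶ tpow X n)) : _ ⟶ _) := by
        show (X ◁ (L.b (up k) : _ ⟶ _) : _ ⟶ _) = _
        rw [L.hab]
        rfl
      rw [e]
      exact (Pool.Agent.W225.KC.swp_nat X (L.a k : tpow X n ⟶ tpow X n)).symm)
    (fun m hm => by
      subst hm
      have e : wh X L.b (Equiv.swap 0 1) = (X ◁ swp X (tpow X m) : _ ⟶ _) := by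
        show (X ◁ (L.b (Equiv.swap 0 1) : _ ⟶ _) : _ ⟶ _) = _
        have := L.hsw
        rw [show L.b (Equiv.swap 0 1) = swp X (tpow X m) from this]
        rfl
      rw [e]
      exact Pool.Agent.W225.KC.swp_braid X (tpow X m))
  exact ⟨⟨L.b, Ψ, fun σ => h1 σ, h2⟩, rfl⟩

theorem lvl0 (X : T) : ∃ _ : Lvl X 0, True := by
  refine ⟨⟨1, 1, fun σ => ?_, trivial⟩, trivial⟩
  exact (MonoidalCategory.whiskerLeft_id _ _).symm

/-- the levels -/
noncomputable def lvl (X : T) : ∀ n : ℕ, Lvl X n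
  | 0 => (lvl0 X).choose
  | n + 1 => (next X n (lvl X n)).choose

theorem exists_permAction [Preadditive T] (X : T) :
    ∃ φ : ∀ n : ℕ, Equiv.Perm (Fin n) →* End (tpow X n), PermAction X φ := by
  have ha : ∀ n, (lvl X (n + 1)).a = (lvl X n).b := fun n => (next X n (lvl X n)).choose_spec
  refine ⟨fun n => (lvl X n).a, ⟨fun n σ => ?_, fun n => ?_⟩⟩
  · show (lvl X (n + 1)).a (up σ) = _
    rw [ha]
    exact (lvl X n).hab σ
  · show (lvl X (n + 2)).a (Equiv.swap 0 1) = _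
    rw [ha]
    exact (lvl X (n + 1)).hsw

end

end Pool.Agent.W657.KC
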